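import Pool.Agent.H6.FN.Targets2

/-!
# Row NAMk of the board fcn_modules

The numerical inequality for the alternating groups of large degree.
-/

set_option autoImplicit false

namespace FI

theorem h13_log_five : (1594 / 1000 : ℝ) ≤ Real.log 5 := by
  have h1 : Real.log ((2 : ℝ) ^ 23) ≤ Real.log ((5 : ℝ) ^ 10) :=
    Real.log_le_log (by positivity) (by norm_num)
  rw [Real.log_pow, Real.log_pow] at h1
  have h2 := Real.log_two_gt_d9
  norm_num at h1
  linarith

theorem h13_log_fac (m : ℕ) (hm : 1 ≤ m) :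
    (m : ℝ) * Real.log m - m ≤ Real.log (m.factorial : ℝ) := by
  have hm0 : (0 : ℝ) < m := by exact_mod_cast hm
  have hf : (0 : ℝ) < (m.factorial : ℝ) := by exact_mod_cast m.factorial_pos
  have h1 := Real.pow_div_factorial_le_exp (m : ℝ) hm0.le m
  rw [div_le_iff₀ hf] at h1
  have h2 := Real.log_le_log (by positivity) h1
  rw [Real.log_pow, Real.log_mul (Real.exp_pos _).ne' hf.ne', Real.log_exp] at h2
  linarith

theorem h13_core (c d : ℝ) (hd : (879 / 10000 : ℝ) ≤ d) (m : ℕ) (hm : 1 ≤ m)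
    (hL : Real.log 2 ≤ Real.log (m.factorial : ℝ))
    (h : c + 27 / 10 * Real.sqrt m + 29 / 20 ≤
      879 / 10000 * ((m : ℝ) * Real.log m - m)) :
    Real.exp c * (2 * Real.exp (27 / 10 * Real.sqrt m)) * (m.factorial : ℝ) ≤
      ((m.factorial : ℝ) / 2) ^ (1 + d) := by
  have hf : (0 : ℝ) < (m.factorial : ℝ) := by exact_mod_cast m.factorial_pos
  have h1 : Real.exp c * (2 * Real.exp (27 / 10 * Real.sqrt m)) * (m.factorial : ℝ) =
      Real.exp (c + (Real.log 2 + 27 / 10 * Real.sqrt m) + Real.log (m.factorial : ℝ)) := by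
    rw [Real.exp_add, Real.exp_add, Real.exp_add, Real.exp_log (by norm_num), Real.exp_log hf]
  rw [h1, Real.rpow_def_of_pos (by positivity), Real.exp_le_exp,
    Real.log_div hf.ne' (by norm_num)]
  have h2 := h13_log_fac m hm
  have h3 : 879 / 10000 * (Real.log (m.factorial : ℝ) - Real.log 2) ≤
      d * (Real.log (m.factorial : ℝ) - Real.log 2) :=
    mul_le_mul_of_nonneg_right hd (by linarith)
  have h4 := Real.log_two_lt_d9
  linarith

theorem h13_log_ge (m n : ℕ) (hn : 1 ≤ n) (h : n ≤ m) : Real.log n ≤ Real.log m := by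
  refine Real.log_le_log ?_ ?_
  · exact_mod_cast hn
  · exact_mod_cast h

theorem h13_two_le (m : ℕ) (h : 2 ≤ m) : Real.log 2 ≤ Real.log (m.factorial : ℝ) := by
  refine Real.log_le_log (by norm_num) ?_
  have h1 : m ≤ m.factorial := Nat.self_le_factorial m
  have h2 : 2 ≤ m.factorial := h.trans h1
  exact_mod_cast h2

theorem pf_NAMk : T_NAMk := by
  intro e he m
  have he0 : 0 < e := by linarith
  have hd : (879 / 10000 : ℝ) ≤ 1 / 2 - 3 / (2 * e) := by
    have h1 : 3 / (2 * e) ≤ 75 / 182 := by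
      rw [div_le_div_iff₀ (by positivity) (by norm_num)]
      linarith
    linarith
  have hexp : (3 / 2 - 3 / (2 * e) : ℝ) = 1 + (1 / 2 - 3 / (2 * e)) := by ring
  have hs0 : 0 ≤ Real.sqrt m := Real.sqrt_nonneg _
  have hss : Real.sqrt m * Real.sqrt m = m := Real.mul_self_sqrt (Nat.cast_nonneg m)
  have hlog2 := Real.log_two_gt_d9
  have hlog5 := h13_log_five
  constructor
  · intro hm
    rw [hexp]
    refine h13_core 20 _ hd m (by omega) (h13_two_le m (by omega)) ?_
    have h1 := h13_log_ge m 200 (by norm_num) hm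
    have h2 : Real.log ((200 : ℕ) : ℝ) = 3 * Real.log 2 + 2 * Real.log 5 := by
      have : ((200 : ℕ) : ℝ) = 2 ^ 3 * 5 ^ 2 := by norm_num
      rw [this, Real.log_mul (by norm_num) (by norm_num), Real.log_pow, Real.log_pow]
      norm_num
    have h3 : (5 : ℝ) + 26 / 100 ≤ Real.log m := by rw [h2] at h1; linarith
    have h4 : (14 : ℝ) ≤ Real.sqrt m := by
      refine Real.le_sqrt_of_sq_le ?_
      have : (200 : ℝ) ≤ m := by exact_mod_cast hm
      norm_num
      linarith
    have h5 : (m : ℝ) * (5 + 26 / 100) ≤ m * Real.log m :=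
      mul_le_mul_of_nonneg_left h3 (Nat.cast_nonneg m)
    have h6 : 14 * Real.sqrt m ≤ m :=
      (mul_le_mul_of_nonneg_right h4 hs0).trans hss.le
    linarith
  · intro hm
    rw [hexp]
    have := h13_core 0 _ hd m (by omega) (h13_two_le m (by omega)) ?_
    · rwa [Real.exp_zero, one_mul] at this
    have h1 := h13_log_ge m 100 (by norm_num) hm
    have h2 : Real.log ((100 : ℕ) : ℝ) = 2 * Real.log 2 + 2 * Real.log 5 := by
      have : ((100 : ℕ) : ℝ) = 2 ^ 2 * 5 ^ 2 := by norm_num
      rw [this, Real.log_mul (by norm_num) (by norm_num), Real.log_pow, Real.log_pow]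
      norm_num
    have h3 : (4 : ℝ) + 57 / 100 ≤ Real.log m := by rw [h2] at h1; linarith
    have h4 : (10 : ℝ) ≤ Real.sqrt m := by
      refine Real.le_sqrt_of_sq_le ?_
      have : (100 : ℝ) ≤ m := by exact_mod_cast hm
      norm_num
      linarith
    have h5 : (m : ℝ) * (4 + 57 / 100) ≤ m * Real.log m :=
      mul_le_mul_of_nonneg_left h3 (Nat.cast_nonneg m)
    have h6 : 10 * Real.sqrt m ≤ m :=
      (mul_le_mul_of_nonneg_right h4 hs0).trans hss.le
    linarith

end FI
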